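import Pool.Agent.H730R2.AA.WdLim
import Pool.Agent.H474R2.GE.RhoHoms
import Pool.Agent.H484R2.Pit

set_option autoImplicit false

/-!
# Orbits of `x ^ d + a`, `d` odd, meet the critical point modulo a positive proportion of the primes

Let `d ≥ 3` be odd, `a ≠ 0` rational, `f = x ^ d + a`, and `α = f ^ k (0)` with `k ≥ 1`. The orbit of
`α` does not contain the critical point `0` of `f`, but modulo every prime `p` for which
`gcd (d, p - 1) = 1` (and which does not divide the denominator of `a`) the map `f` is a permutation,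
hence some `f ^ n (α)` is congruent to `0` modulo `p`. For prime `d`, if `a` is not a `d`-th power, the
proportion of the primes with this property is thus between `1 - 1 / (d - 1)` and `1 - 1 / d`.
-/

open Filter Topology Finset

namespace Pool.Agent.Results.MP_41de88_nt.PermutationPrimes

/-- The polynomial map `x ↦ x ^ d + a`. For `d ≥ 2` its only critical point is `0`. -/
def uni (d : ℕ) (a x : ℚ) : ℚ := x ^ d + a

/-- The set `S(f, α)` for `f = x ^ d + a`: the primes `p`, not dividing the denominators of `a` and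
`α`, modulo which some `f ^ n (α)` is congruent to the critical point `0`. -/
def S (d : ℕ) (a α : ℚ) : Set ℕ :=
  {p | p.Prime ∧ ¬ p ∣ a.den ∧ ¬ p ∣ α.den ∧ ∃ n : ℕ, (p : ℤ) ∣ ((uni d a)^[n] α).num}

/-- The proportion of the residues `u` modulo `d` with `u - 1` prime to `d` among the residues
prime to `d`. -/
noncomputable def lowerDens (d : ℕ) : ℝ :=
  (Nat.card {u : (ZMod d)ˣ // IsUnit ((u : ZMod d) - 1)} : ℝ) / d.totient

section

variable {p : ℕ} [hp : Fact p.Prime]

theorem cast_ne {x : ℚ} (hx : ¬ p ∣ x.den) : ((x.den : ℕ) : ZMod p) ≠ 0 := by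
  rw [Ne, ZMod.natCast_eq_zero_iff]
  exact hx

theorem int_mul {x y : ℚ} (hx : ¬ p ∣ x.den) (hy : ¬ p ∣ y.den) : ¬ p ∣ (x * y).den := by
  intro h
  rcases hp.out.dvd_mul.1 (h.trans (Rat.mul_den_dvd x y)) with h | h
  · exact hx h
  · exact hy h

theorem int_add {x y : ℚ} (hx : ¬ p ∣ x.den) (hy : ¬ p ∣ y.den) : ¬ p ∣ (x + y).den := by
  intro h
  rcases hp.out.dvd_mul.1 (h.trans (Rat.add_den_dvd x y)) with h | h
  · exact hx h
  · exact hy h

theorem int_pow {x : ℚ} (hx : ¬ p ∣ x.den) (n : ℕ) :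
    ¬ p ∣ (x ^ n).den ∧ ((x ^ n : ℚ) : ZMod p) = (x : ZMod p) ^ n := by
  induction n with
  | zero =>
    refine ⟨?_, ?_⟩
    · rw [pow_zero]
      exact hp.out.one_lt.ne' ∘ Nat.dvd_one.1
    · rw [pow_zero, pow_zero, Rat.cast_one]
  | succ n ih =>
    refine ⟨?_, ?_⟩
    · rw [pow_succ]
      exact int_mul ih.1 hx
    · rw [pow_succ, Rat.cast_mul_of_ne_zero (cast_ne ih.1) (cast_ne hx), ih.2, pow_succ]

theorem iter_cast (d : ℕ) {a x : ℚ} (ha : ¬ p ∣ a.den) (hx : ¬ p ∣ x.den) (n : ℕ) :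
    ¬ p ∣ ((uni d a)^[n] x).den ∧ (((uni d a)^[n] x : ℚ) : ZMod p) =
      (fun y : ZMod p => y ^ d + (a : ZMod p))^[n] (x : ZMod p) := by
  induction n with
  | zero => exact ⟨hx, rfl⟩
  | succ n ih =>
    rw [Function.iterate_succ_apply', Function.iterate_succ_apply']
    obtain ⟨h1, h2⟩ := int_pow (p := p) ih.1 d
    refine ⟨int_add h1 ha, ?_⟩
    show ((((uni d a)^[n] x) ^ d + a : ℚ) : ZMod p) = _
    rw [Rat.cast_add_of_ne_zero (cast_ne h1) (cast_ne ha), h2, ih.2]

theorem inj {d : ℕ} (hd : d ≠ 0) (h : (p - 1).Coprime d) (A : ZMod p) :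
    Function.Injective (fun y : ZMod p => y ^ d + A) := by
  intro y z hyz
  have h1 : y ^ d = z ^ d := add_right_cancel hyz
  by_cases hz : z = 0
  · rw [hz, zero_pow hd] at h1
    rw [hz]
    exact pow_eq_zero_iff hd |>.1 h1
  · have hy : y ≠ 0 := by
      rintro rfl
      rw [zero_pow hd] at h1
      exact hz (pow_eq_zero_iff hd |>.1 h1.symm)
    have h2 : (y / z) ^ d = 1 := by
      rw [div_pow, h1, div_self (pow_ne_zero d hz)]
    have h3 : (y / z) ^ (p - 1) = 1 := ZMod.pow_card_sub_one_eq_one (div_ne_zero hy hz)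
    have h4 : orderOf (y / z) ∣ Nat.gcd (p - 1) d :=
      Nat.dvd_gcd (orderOf_dvd_of_pow_eq_one h3) (orderOf_dvd_of_pow_eq_one h2)
    rw [h, Nat.dvd_one, orderOf_eq_one_iff, div_eq_one_iff_eq hz] at h4
    exact h4

theorem num_dvd {x : ℚ} (hx : ¬ p ∣ x.den) (h : (x : ZMod p) = 0) : (p : ℤ) ∣ x.num := by
  rw [Rat.cast_def, div_eq_zero_iff] at h
  rcases h with h | h
  · exact (ZMod.intCast_zmod_eq_zero_iff_dvd _ _).1 h
  · exact absurd h (cast_ne hx)

end

theorem mem_S {d : ℕ} (hd : d ≠ 0) {a : ℚ} (k : ℕ) {p : ℕ} (hp : p.Prime) (ha : ¬ p ∣ a.den)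
    (h : (p - 1).Coprime d) : p ∈ S d a ((uni d a)^[k] 0) := by
  have _ : Fact p.Prime := ⟨hp⟩
  have h0 : ¬ p ∣ (0 : ℚ).den := hp.one_lt.ne' ∘ Nat.dvd_one.1
  refine ⟨hp, ha, (iter_cast d ha h0 k).1, ?_⟩
  obtain ⟨n, hn, hn0⟩ := (inj hd h (a : ZMod p)).mem_periodicPts (0 : ZMod p)
  have h1 : (fun y : ZMod p => y ^ d + (a : ZMod p))^[n * k] 0 = 0 := hn0.mul_const k
  have hk : n * k - k + k = n * k := Nat.sub_add_cancel (Nat.le_mul_of_pos_left k hn)
  refine ⟨n * k - k, ?_⟩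
  rw [← Function.iterate_add_apply, hk]
  obtain ⟨h2, h3⟩ := iter_cast d ha h0 (n * k)
  rw [Rat.cast_zero, h1] at h3
  exact num_dvd h2 h3

theorem ne_zero {d : ℕ} (hd : Odd d) {a : ℚ} (ha : a ≠ 0) (n : ℕ) (hn : 0 < n) :
    (uni d a)^[n] 0 ≠ 0 := by
  rcases lt_or_gt_of_ne ha with h | h
  · have h1 : ∀ n, (uni d a)^[n] 0 ≤ 0 := by
      intro n
      induction n with
      | zero => exact le_rfl
      | succ n ih =>
        rw [Function.iterate_succ_apply']
        have := hd.pow_nonpos_iff.2 ih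
        unfold uni at this ⊢
        linarith
    obtain ⟨m, rfl⟩ : ∃ m, n = m + 1 := ⟨n - 1, by omega⟩
    rw [Function.iterate_succ_apply']
    have := hd.pow_nonpos_iff.2 (h1 m)
    unfold uni at this ⊢
    linarith
  · have h1 : ∀ n, 0 ≤ (uni d a)^[n] 0 := by
      intro n
      induction n with
      | zero => exact le_rfl
      | succ n ih =>
        rw [Function.iterate_succ_apply']
        have := pow_nonneg ih d
        unfold uni at this ⊢
        linarith
    obtain ⟨m, rfl⟩ : ∃ m, n = m + 1 := ⟨n - 1, by omega⟩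
    rw [Function.iterate_succ_apply']
    have := pow_nonneg (h1 m) d
    unfold uni at this ⊢
    linarith

open Pool.Agent.H730R2.AA in
theorem density {d : ℕ} (hd : d ≠ 0) {a : ℚ} (k : ℕ) (ε : ℝ) (hε : 0 < ε) :
    ∀ᶠ N : ℕ in atTop, (lowerDens d - ε) * Nat.primeCounting N ≤
      Nat.card {p : ℕ // p ≤ N ∧ p ∈ S d a ((uni d a)^[k] 0)} := by
  classical
  have _ : NeZero d := ⟨hd⟩
  let G : Finset (ZMod d)ˣ := Finset.univ.filter fun u => IsUnit ((u : ZMod d) - 1)
  have hG : lowerDens d = ∑ _u ∈ G, ((d.totient : ℝ)⁻¹) := by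
    rw [Finset.sum_const, nsmul_eq_mul]
    unfold lowerDens
    rw [Nat.card_eq_fintype_card, Fintype.card_subtype, div_eq_mul_inv]
  have h1 : Tendsto (fun x : ℕ => ∑ u ∈ G,
      ((clsP d (u : ZMod d) x).card : ℝ) / Nat.primeCounting x) atTop (𝓝 (lowerDens d)) := by
    rw [hG]
    exact tendsto_finsetSum _ fun u _ => cls_tendsto d u
  have h2 : Tendsto (fun x : ℕ => (a.den : ℝ) / Nat.primeCounting x) atTop (𝓝 0) :=
    tendsto_const_nhds.div_atTop pc_atTop
  have h3 := h1.sub h2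
  rw [sub_zero] at h3
  have h4 := h3.eventually (lt_mem_nhds (show lowerDens d - ε < lowerDens d by linarith))
  filter_upwards [h4, eventually_ge_atTop 2] with N h5 hN
  have hpos : (0 : ℝ) < Nat.primeCounting N := by exact_mod_cast pc_pos N hN
  have hT : Nat.card {p : ℕ // p ≤ N ∧ p ∈ S d a ((uni d a)^[k] 0)} =
      ((Finset.range (N + 1)).filter (· ∈ S d a ((uni d a)^[k] 0))).card := by
    refine Nat.subtype_card _ fun p => ?_
    rw [Finset.mem_filter, Finset.mem_range, Nat.lt_succ_iff]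
  have h6 : ∑ u ∈ G, (clsP d (u : ZMod d) N).card ≤
      Nat.card {p : ℕ // p ≤ N ∧ p ∈ S d a ((uni d a)^[k] 0)} + a.den := by
    rw [hT, ← Finset.card_biUnion]
    · have h7 : G.biUnion (fun u => clsP d (u : ZMod d) N) ⊆
          (Finset.range (N + 1)).filter (· ∈ S d a ((uni d a)^[k] 0)) ∪ a.den.divisors := by
        intro p hp
        rw [Finset.mem_biUnion] at hp
        obtain ⟨u, hu, hp⟩ := hp
        rw [clsP, Finset.mem_filter, Finset.mem_Icc] at hp
        obtain ⟨⟨hp1, hpN⟩, hpp, hpu⟩ := hp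
        rw [Finset.mem_union]
        by_cases hpa : p ∣ a.den
        · exact Or.inr (Nat.mem_divisors.2 ⟨hpa, a.den_nz⟩)
        · left
          rw [Finset.mem_filter, Finset.mem_range]
          refine ⟨by omega, mem_S hd k hpp hpa ?_⟩
          rw [← ZMod.isUnit_iff_coprime, Nat.cast_sub hp1, hpu, Nat.cast_one]
          exact (Finset.mem_filter.1 hu).2
      exact (Finset.card_le_card h7).trans ((Finset.card_union_le _ _).trans
        (Nat.add_le_add_left (Nat.card_divisors_le_self _) _))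
    · intro u _ v _ huv
      change Disjoint (clsP d (u : ZMod d) N) (clsP d (v : ZMod d) N)
      rw [Finset.disjoint_left]
      intro q hq hq'
      rw [clsP, Finset.mem_filter] at hq hq'
      apply huv
      exact Units.ext (hq.2.2.symm.trans hq'.2.2)
  have h8 : ∑ u ∈ G, ((clsP d (u : ZMod d) N).card : ℝ) ≤
      Nat.card {p : ℕ // p ≤ N ∧ p ∈ S d a ((uni d a)^[k] 0)} + a.den := by
    exact_mod_cast h6
  rw [← Finset.sum_div, ← sub_div, lt_div_iff₀ hpos] at h5
  linarith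

theorem lowerDens_pos {d : ℕ} (hd : Odd d) : 0 < lowerDens d := by
  have hd0 : 0 < d := hd.pos
  have _ : NeZero d := ⟨hd0.ne'⟩
  have h2 : IsUnit ((2 : ℕ) : ZMod d) := by
    rw [ZMod.isUnit_iff_coprime]
    exact (Nat.coprime_two_left).2 hd
  obtain ⟨u, hu⟩ := h2
  have hu1 : IsUnit ((u : ZMod d) - 1) := by
    rw [hu]
    have : ((2 : ℕ) : ZMod d) - 1 = 1 := by push_cast; ring
    rw [this]
    exact isUnit_one
  have hc : 0 < Nat.card {u : (ZMod d)ˣ // IsUnit ((u : ZMod d) - 1)} :=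
    Nat.card_pos_iff.2 ⟨⟨⟨u, hu1⟩⟩, inferInstance⟩
  have ht : 0 < d.totient := Nat.totient_pos.2 hd0
  unfold lowerDens
  positivity

theorem lowerDens_prime {d : ℕ} (hd : d.Prime) : lowerDens d = (d - 2) / (d - 1) := by
  have _ : Fact d.Prime := ⟨hd⟩
  have h1 : Nat.card {u : (ZMod d)ˣ // IsUnit ((u : ZMod d) - 1)} = d - 2 := by
    classical
    have h2 : ∀ u : (ZMod d)ˣ, u ∈ (Finset.univ.erase 1 : Finset (ZMod d)ˣ) ↔
        IsUnit ((u : ZMod d) - 1) := by
      intro u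
      rw [Finset.mem_erase, isUnit_iff_ne_zero, sub_ne_zero, Ne, Ne, Units.val_eq_one]
      simp
    rw [Nat.subtype_card _ h2, Finset.card_erase_of_mem (Finset.mem_univ _), Finset.card_univ,
      ZMod.card_units_eq_totient, Nat.totient_prime hd]
    omega
  unfold lowerDens
  rw [h1, Nat.totient_prime hd, Nat.cast_sub hd.two_le, Nat.cast_sub hd.one_le]
  norm_num

section Upper

open Pool.Agent.H474R2.PG

theorem rho_ge {p : ℕ} [Fact p.Prime] (d : ℕ) (b : ℤ) (T : Finset (ZMod p))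
    (hT : ∀ x ∈ T, x ^ d = (b : ZMod p)) :
    T.card ≤ rho (Polynomial.X ^ d - Polynomial.C b) p := by
  unfold rho
  refine Finset.card_le_card_of_injOn ZMod.val ?_ (ZMod.val_injective p).injOn
  intro x hx
  have h1 : (p : ℤ) ∣ (Polynomial.X ^ d - Polynomial.C b).eval ((x.val : ℕ) : ℤ) := by
    rw [← ZMod.intCast_zmod_eq_zero_iff_dvd]
    rw [Polynomial.eval_sub, Polynomial.eval_pow, Polynomial.eval_X, Polynomial.eval_C]
    push_cast
    rw [ZMod.natCast_zmod_val, hT x hx, sub_self]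
  exact Finset.mem_coe.2 (Finset.mem_filter.2 ⟨Finset.mem_range.2 (ZMod.val_lt x), h1⟩)

theorem rho_ge_one {p : ℕ} [Fact p.Prime] {d : ℕ} (hd : d ≠ 0) (h : (p - 1).Coprime d) (b : ℤ) :
    1 ≤ rho (Polynomial.X ^ d - Polynomial.C b) p := by
  obtain ⟨y, hy⟩ := (Finite.injective_iff_surjective.1 (inj (p := p) hd h 0)) (b : ZMod p)
  have h1 := rho_ge (p := p) d b {y} (by
    intro x hx
    rw [Finset.mem_singleton] at hx
    rw [hx]
    simpa using hy)
  simpa using h1

theorem rho_ge_d {p : ℕ} [hp : Fact p.Prime] {d : ℕ} (hd : 0 < d) (h : d ∣ p - 1) {b : ℤ}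
    (hb : (b : ZMod p) ≠ 0) {x : ZMod p} (hx : x ^ d = (b : ZMod p)) :
    d ≤ rho (Polynomial.X ^ d - Polynomial.C b) p := by
  classical
  have hx0 : x ≠ 0 := by
    rintro rfl
    rw [zero_pow hd.ne'] at hx
    exact hb hx.symm
  obtain ⟨g, hg⟩ := IsCyclic.exists_ofOrder_eq_natCard (α := (ZMod p)ˣ)
  rw [Nat.card_eq_fintype_card, ZMod.card_units] at hg
  obtain ⟨m, hm⟩ := h
  have hp1 : 0 < p - 1 := Nat.sub_pos_of_lt hp.out.one_lt
  have hm0 : m ≠ 0 := by
    rintro rfl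
    omega
  have hord : orderOf (g ^ m) = d := by
    rw [orderOf_pow_of_dvd hm0 (by rw [hg, hm]; exact Dvd.intro_left d rfl), hg, hm]
    exact Nat.mul_div_cancel _ (Nat.pos_of_ne_zero hm0)
  obtain ⟨ζ, hζ⟩ : ∃ ζ : (ZMod p)ˣ, orderOf ζ = d := ⟨g ^ m, hord⟩
  have h1 := rho_ge (p := p) d b ((Finset.range d).image fun i => x * ((ζ ^ i : (ZMod p)ˣ) : ZMod p))
    (by
      intro y hy
      obtain ⟨i, -, rfl⟩ := Finset.mem_image.1 hy
      rw [mul_pow, hx, ← Units.val_pow_eq_pow_val, ← pow_mul, mul_comm i d, pow_mul, ← hζ,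
        pow_orderOf_eq_one, one_pow, Units.val_one, mul_one])
  rwa [Finset.card_image_of_injOn, Finset.card_range] at h1
  intro i hi j hj hij
  have h2 := Units.ext (mul_left_cancel₀ hx0 hij)
  have hi' : i < orderOf ζ := by rw [hζ]; exact Finset.mem_range.1 (Finset.mem_coe.1 hi)
  have hj' : j < orderOf ζ := by rw [hζ]; exact Finset.mem_range.1 (Finset.mem_coe.1 hj)
  exact pow_injOn_Iio_orderOf hi' hj' h2

theorem root_of_mem {d : ℕ} (hd : Odd d) {a α : ℚ} {p : ℕ} [Fact p.Prime]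
    (hα : ¬ (p : ℤ) ∣ α.num) (h : p ∈ S d a α) :
    ∃ x : ZMod p, x ^ d = ((a.num * a.den ^ (d - 1) : ℤ) : ZMod p) := by
  obtain ⟨-, hpa, hpα, n, hn⟩ := h
  rcases n with _ | m
  · exact absurd hn hα
  obtain ⟨-, h2⟩ := iter_cast d hpa hpα (m + 1)
  rw [Rat.cast_def, (ZMod.intCast_zmod_eq_zero_iff_dvd _ _).2 hn, zero_div,
    Function.iterate_succ_apply'] at h2
  obtain ⟨y, hy⟩ : ∃ y, y = (fun y : ZMod p => y ^ d + (a : ZMod p))^[m] (α : ZMod p) :=
    ⟨_, rfl⟩
  rw [← hy] at h2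
  have h3 : y ^ d = - ((a.num : ZMod p) / (a.den : ZMod p)) := by
    rw [← Rat.cast_def]
    exact eq_neg_of_add_eq_zero_left h2.symm
  refine ⟨-y * a.den, ?_⟩
  have hden : ((a.den : ℕ) : ZMod p) ≠ 0 := cast_ne hpa
  obtain ⟨e, he⟩ : ∃ e, d = e + 1 := ⟨d - 1, by have := hd.pos; omega⟩
  rw [mul_pow, hd.neg_pow, h3, neg_neg]
  push_cast
  rw [he, Nat.add_sub_cancel, pow_succ]
  field_simp

open Pool.Agent.H730R2.AA in
theorem upper {d : ℕ} (hd : d.Prime) (hodd : Odd d) {a : ℚ} (ha : ∀ c : ℚ, c ^ d ≠ a) {α : ℚ}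
    (hα : α ≠ 0) (ε : ℝ) (hε : 0 < ε) :
    ∀ᶠ N : ℕ in atTop, (Nat.card {p : ℕ // p ≤ N ∧ p ∈ S d a α} : ℝ) ≤
      (1 - 1 / d + ε) * Nat.primeCounting N := by
  classical
  have _ : NeZero d := ⟨hd.ne_zero⟩
  have ha0 : a ≠ 0 := fun h => ha 0 (by rw [h, zero_pow hd.ne_zero])
  obtain ⟨b, hb⟩ : ∃ b : ℤ, b = a.num * a.den ^ (d - 1) := ⟨_, rfl⟩
  have hden0 : (a.den : ℚ) ≠ 0 := by exact_mod_cast a.den_nz
  have hb0 : b ≠ 0 := by
    rw [hb]
    exact mul_ne_zero (Rat.num_ne_zero.2 ha0) (pow_ne_zero _ (by exact_mod_cast a.den_nz))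
  have hbq : (b : ℚ) = a * a.den ^ d := by
    obtain ⟨e, he⟩ : ∃ e, d = e + 1 := ⟨d - 1, by have := hd.pos; omega⟩
    rw [hb]
    push_cast
    rw [he, Nat.add_sub_cancel, pow_succ]
    have h1 : (a.num : ℚ) = a * a.den := (Rat.mul_den_eq_num a).symm
    rw [h1]
    ring
  have hirr : Irreducible (Polynomial.X ^ d - Polynomial.C b : Polynomial ℤ) := by
    rw [(Polynomial.monic_X_pow_sub_C b hd.ne_zero).irreducible_iff_irreducible_map_fraction_map
      (K := ℚ)]
    rw [Polynomial.map_sub, Polynomial.map_pow, Polynomial.map_X, Polynomial.map_C]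
    refine X_pow_sub_C_irreducible_of_prime hd fun c hc => ?_
    refine ha (c / a.den) ?_
    rw [div_pow, hc]
    show ((b : ℤ) : ℚ) / _ = a
    rw [hbq, mul_div_assoc, div_self (pow_ne_zero _ hden0), mul_one]
  obtain ⟨K, iF, iN, B, hB⟩ := Pool.Agent.H474R2.GE.rho_le_homs _ hirr (by
    rw [Polynomial.natDegree_X_pow_sub_C]
    exact hd.pos)
  obtain ⟨M, hM⟩ : ∃ M, M = B + b.natAbs + α.num.natAbs := ⟨_, rfl⟩
  obtain ⟨hc, hhc⟩ : ∃ hc : ℕ → ℕ, hc = fun p => Nat.card (NumberField.RingOfIntegers K →+* ZMod p) :=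
    ⟨_, rfl⟩
  obtain ⟨P, hP⟩ : ∃ P : ℕ → Finset ℕ, P = fun N => (Finset.range (N + 1)).filter Nat.Prime :=
    ⟨_, rfl⟩
  -- the pointwise bound
  have key : ∀ p : ℕ, p.Prime → d * (if p ∈ S d a α then 1 else 0) ≤
      (d - 1) * (if (p : ZMod d) = 1 then 0 else 1) + hc p + d * (if p ≤ M then 1 else 0) := by
    intro p hp
    have _ : Fact p.Prime := ⟨hp⟩
    by_cases hpM : p ≤ M
    · rw [if_pos hpM]
      split_ifs <;> omega
    · rw [if_neg hpM]
      have h1 : rho (Polynomial.X ^ d - Polynomial.C b) p ≤ hc p := by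
        rw [hhc]
        exact hB p hp (by omega)
      by_cases hp1 : (p : ZMod d) = 1
      · rw [if_pos hp1]
        by_cases hpS : p ∈ S d a α
        · rw [if_pos hpS]
          obtain ⟨x, hx⟩ := root_of_mem hodd (p := p) (fun h => by
            have h2 := Nat.le_of_dvd (Int.natAbs_pos.2 (Rat.num_ne_zero.2 hα))
              (Int.natCast_dvd.1 h)
            omega) hpS
          rw [← hb] at hx
          have hbp : (b : ZMod p) ≠ 0 := by
            intro h
            rw [ZMod.intCast_zmod_eq_zero_iff_dvd] at h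
            have h2 := Nat.le_of_dvd (Int.natAbs_pos.2 hb0) (Int.natCast_dvd.1 h)
            omega
          have hdp : d ∣ p - 1 := by
            rw [← ZMod.natCast_eq_zero_iff, Nat.cast_sub hp.one_le, hp1, Nat.cast_one, sub_self]
          have h3 := rho_ge_d hd.pos hdp hbp hx
          omega
        · rw [if_neg hpS]
          omega
      · rw [if_neg hp1]
        have hcop : (p - 1).Coprime d := by
          rw [Nat.coprime_comm, hd.coprime_iff_not_dvd, ← ZMod.natCast_eq_zero_iff,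
            Nat.cast_sub hp.one_le, Nat.cast_one, sub_eq_zero]
          exact hp1
        have h3 := rho_ge_one (p := p) hd.ne_zero hcop b
        have h4 := hd.one_lt
        split_ifs <;> omega
  -- summation
  have hsum : ∀ N : ℕ, (d : ℝ) * Nat.card {p : ℕ // p ≤ N ∧ p ∈ S d a α} ≤
      (d - 1) * (Nat.primeCounting N - (clsP d (1 : ZMod d) N).card) +
        ∑ p ∈ P N, (hc p : ℝ) + d * (M + 1) := by
    intro N
    have hcard : (P N).card = Nat.primeCounting N := by
      rw [hP, Nat.primeCounting, Nat.primeCounting', Nat.count_eq_card_filter_range]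
    have hPp : ∀ p ∈ P N, p.Prime := by
      intro p hp
      rw [hP] at hp
      exact (Finset.mem_filter.1 hp).2
    have hT : Nat.card {p : ℕ // p ≤ N ∧ p ∈ S d a α} =
        ((P N).filter (· ∈ S d a α)).card := by
      refine Nat.subtype_card _ fun p => ?_
      rw [hP, Finset.mem_filter, Finset.mem_filter, Finset.mem_range, Nat.lt_succ_iff]
      exact ⟨fun h => ⟨h.1.1, h.2⟩, fun h => ⟨⟨h.1, h.2.1⟩, h.2⟩⟩
    have hcl : (P N).filter (fun p : ℕ => (p : ZMod d) = 1) = clsP d (1 : ZMod d) N := by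
      ext p
      rw [hP, clsP, Finset.mem_filter, Finset.mem_filter, Finset.mem_filter, Finset.mem_range,
        Finset.mem_Icc, Nat.lt_succ_iff]
      exact ⟨fun h => ⟨⟨h.1.2.one_le, h.1.1⟩, h.1.2, h.2⟩, fun h => ⟨⟨h.1.2, h.2.1⟩, h.2.2⟩⟩
    have h1 : ∀ p ∈ P N, (d : ℝ) * (if p ∈ S d a α then 1 else 0) ≤
        (d - 1) * (1 - (if (p : ZMod d) = 1 then 1 else 0)) + hc p +
          d * (if p ≤ M then 1 else 0) := by
      intro p hp
      have h2 : ((d * (if p ∈ S d a α then 1 else 0) : ℕ) : ℝ) ≤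
        (((d - 1) * (if (p : ZMod d) = 1 then 0 else 1) + hc p + d * (if p ≤ M then 1 else 0) : ℕ)
          : ℝ) := Nat.cast_le.2 (key p (hPp p hp))
      push_cast [Nat.cast_sub hd.one_le] at h2
      have h3 : (if (p : ZMod d) = 1 then (0 : ℝ) else 1) =
          1 - (if (p : ZMod d) = 1 then 1 else 0) := by
        split_ifs <;> norm_num
      rw [h3] at h2
      exact h2
    have h2 := Finset.sum_le_sum h1
    rw [← Finset.mul_sum, Finset.sum_boole, Finset.sum_add_distrib, Finset.sum_add_distrib,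
      ← Finset.mul_sum, ← Finset.mul_sum, Finset.sum_sub_distrib, Finset.sum_boole,
      Finset.sum_boole, Finset.sum_const, nsmul_eq_mul, mul_one, hcard, hcl] at h2
    have h4 : (((P N).filter (fun p => p ≤ M)).card : ℝ) ≤ M + 1 := by
      have h5 : ((P N).filter (fun p => p ≤ M)).card ≤ (Finset.range (M + 1)).card := by
        refine Finset.card_le_card fun p hp => ?_
        rw [Finset.mem_range]
        exact Nat.lt_succ_of_le (Finset.mem_filter.1 hp).2
      rw [Finset.card_range] at h5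
      exact_mod_cast h5
    have h6 : (d : ℝ) * ((P N).filter (fun p => p ≤ M)).card ≤ d * (M + 1) :=
      mul_le_mul_of_nonneg_left h4 (Nat.cast_nonneg _)
    rw [hT]
    linarith
  have hd1 : (1 : ℝ) < d := by exact_mod_cast hd.one_lt
  have l1 : Tendsto (fun N : ℕ => ((clsP d (1 : ZMod d) N).card : ℝ) / Nat.primeCounting N) atTop
      (𝓝 (((d : ℝ) - 1)⁻¹)) := by
    have h1 := cls_tendsto d (1 : (ZMod d)ˣ)
    rw [Nat.totient_prime hd, Nat.cast_sub hd.one_le, Nat.cast_one, Units.val_one] at h1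
    exact h1
  have l2 : Tendsto (fun N : ℕ => (∑ p ∈ P N, (hc p : ℝ)) / Nat.primeCounting N) atTop (𝓝 1) := by
    rw [hP, hhc]
    exact Pool.Agent.H484R2.pit K
  have l3 : Tendsto (fun N : ℕ => ((d : ℝ) * (M + 1)) / Nat.primeCounting N) atTop (𝓝 0) :=
    tendsto_const_nhds.div_atTop pc_atTop
  have l4 := (((l1.const_sub 1).const_mul ((d : ℝ) - 1)).add l2).add l3
  have e1 : ((d : ℝ) - 1) * (1 - ((d : ℝ) - 1)⁻¹) + 1 + 0 = d - 1 := by
    have : (d : ℝ) - 1 ≠ 0 := by linarith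
    field_simp
    ring
  rw [e1] at l4
  have l5 := l4.eventually (gt_mem_nhds (show (d : ℝ) - 1 < d - 1 + d * ε by
    have : 0 < (d : ℝ) * ε := by positivity
    linarith))
  filter_upwards [l5, eventually_ge_atTop 2] with N h5 hN
  have hpos : (0 : ℝ) < Nat.primeCounting N := by exact_mod_cast pc_pos N hN
  have h6 := hsum N
  have h7 : ((d : ℝ) - 1) * (1 - ((clsP d (1 : ZMod d) N).card : ℝ) / Nat.primeCounting N) +
      (∑ p ∈ P N, (hc p : ℝ)) / Nat.primeCounting N + ((d : ℝ) * (M + 1)) / Nat.primeCounting N =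
      (((d : ℝ) - 1) * (Nat.primeCounting N - (clsP d (1 : ZMod d) N).card) +
        ∑ p ∈ P N, (hc p : ℝ) + d * (M + 1)) / Nat.primeCounting N := by
    field_simp
  rw [h7, div_lt_iff₀ hpos] at h5
  have h8 : (d : ℝ) * Nat.card {p : ℕ // p ≤ N ∧ p ∈ S d a α} ≤
      (d - 1 + d * ε) * Nat.primeCounting N := by linarith
  have h9 : (1 - 1 / (d : ℝ) + ε) * Nat.primeCounting N =
      ((d - 1 + d * ε) * Nat.primeCounting N) / d := by
    field_simp
  rw [h9, le_div_iff₀ (by linarith), mul_comm]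
  exact h8

end Upper

/-- Let `d ≥ 3` be odd, `a ≠ 0` rational, `f = x ^ d + a`.

(1) Let `α = f ^ k (0)` with `k ≥ 1`. The orbit of `α` does not contain the critical point `0`. The set
`S(f, α)` of the primes modulo which the orbit of `α` meets the critical point contains all the
primes `p` with `gcd (d, p - 1) = 1` not dividing the denominator of `a`; therefore its lower density
is at least `lowerDens d > 0`, which is `1 - 1 / (d - 1)` for prime `d`.

(2) If `d` is prime and `a` is not a `d`-th power, then the upper density of `S(f, α)` is at most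
`1 - 1 / d` for every rational `α ≠ 0`. -/
theorem result (d : ℕ) (hd : Odd d) (hd1 : 1 < d) (a : ℚ) (ha : a ≠ 0) :
    (∀ k : ℕ, 0 < k →
      (∀ n, (uni d a)^[n] ((uni d a)^[k] 0) ≠ 0) ∧
      (∀ p : ℕ, p.Prime → ¬ p ∣ a.den → (p - 1).Coprime d → p ∈ S d a ((uni d a)^[k] 0)) ∧
      ∀ ε : ℝ, 0 < ε → ∀ᶠ N : ℕ in atTop, (lowerDens d - ε) * Nat.primeCounting N ≤
        Nat.card {p : ℕ // p ≤ N ∧ p ∈ S d a ((uni d a)^[k] 0)}) ∧
    0 < lowerDens d ∧ (d.Prime → lowerDens d = 1 - 1 / (d - 1)) ∧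
    (d.Prime → (∀ c : ℚ, c ^ d ≠ a) → ∀ α : ℚ, α ≠ 0 →
      ∀ ε : ℝ, 0 < ε → ∀ᶠ N : ℕ in atTop,
        (Nat.card {p : ℕ // p ≤ N ∧ p ∈ S d a α} : ℝ) ≤
          (1 - 1 / d + ε) * Nat.primeCounting N) := by
  have hd0 : d ≠ 0 := by omega
  refine ⟨fun k hk => ⟨fun n => ?_, fun p hp hpa h => mem_S hd0 k hp hpa h, density hd0 k⟩,
    lowerDens_pos hd, fun h => ?_, fun h ha' α hα => upper h hd ha' hα⟩
  · rw [← Function.iterate_add_apply]
    exact ne_zero hd ha _ (by omega)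
  · rw [lowerDens_prime h]
    have h1 : (1 : ℝ) < d := by exact_mod_cast hd1
    have h2 : (d : ℝ) - 1 ≠ 0 := by linarith
    field_simp
    ring

end Pool.Agent.Results.MP_41de88_nt.PermutationPrimes
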