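import Mathlib
import Pool.Agent.TH191.CP.Pre

set_option autoImplicit false

/-! Primes modulo which an orbit meets a critical point: for the power maps and the Chebyshev
polynomials, up to conjugation over `ℚ`, there are at most `C √x (log x)^k` of them up to `x`. -/

namespace Pool.Agent.Results.MP_41de88_nt.SpecialPolynomials

open Polynomial Filter Topology

/-- the `n`-th point of the orbit of `α` -/
def orb (f : ℚ[X]) (α : ℚ) (n : ℕ) : ℚ := (fun x => f.eval x)^[n] α

/-- The primes `p` such that `f` and `α` are `p`-integral and some point of the orbit of `α` is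
congruent to a critical point `c` of `f` modulo a prime above `p`: `V` runs through the valuation
rings of the algebraic closure of `ℚ` in which `p` is not invertible, `V.nonunits` is the maximal
ideal. -/
def S (f : ℚ[X]) (α : ℚ) : Set ℕ :=
  {p | p.Prime ∧ (∀ i, ¬ p ∣ (f.coeff i).den) ∧ ¬ p ∣ α.den ∧
    ∃ n : ℕ, ∃ c : AlgebraicClosure ℚ, aeval c (derivative f) = 0 ∧
      ∃ V : ValuationSubring (AlgebraicClosure ℚ), (p : AlgebraicClosure ℚ) ∈ V.nonunits ∧ c ∈ V ∧
        algebraMap ℚ (AlgebraicClosure ℚ) (orb f α n) - c ∈ V.nonunits}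

/-- the orbit of `α` contains no critical point of `f` -/
def Avoids (f : ℚ[X]) (α : ℚ) : Prop := ∀ n : ℕ, (derivative f).eval (orb f α n) ≠ 0

/-- the number of elements `≤ x` -/
noncomputable def cnt (A : Set ℕ) (x : ℕ) : ℕ := (A ∩ Set.Icc 1 x).ncard

/-- the set `A` has density zero among the primes -/
def DensityZero (A : Set ℕ) : Prop :=
  Tendsto (fun x : ℕ => (cnt A x : ℝ) / (Nat.primeCounting x : ℝ)) atTop (𝓝 0)

/-- `f` is linearly conjugate over `ℚ` to `T_d` or `-T_d`, or it is `b (x - t)^d + t`, `b ≠ 0` -/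
def Special (d : ℕ) (f : ℚ[X]) : Prop :=
  (∃ s m t : ℚ, (s = 1 ∨ s = -1) ∧ m ≠ 0 ∧
    ∀ x : ℚ, f.eval x = m * (s * (Chebyshev.T ℚ d).eval ((x - t) / m)) + t) ∨
  (∃ b t : ℚ, b ≠ 0 ∧ ∀ x : ℚ, f.eval x = b * (x - t) ^ d + t)

theorem result (d : ℕ) (hd : 2 ≤ d) (f : ℚ[X]) (hf : Special d f) (α : ℚ) (hα : Avoids f α) :
    (∃ C : ℝ, ∀ x : ℕ, 2 ≤ x →
      (cnt (S f α) x : ℝ) ≤ C * (√x * (Real.log x) ^ d.primeFactors.card)) ∧
    DensityZero (S f α) := by
  have main : ∃ C : ℝ, ∀ x : ℕ, 2 ≤ x →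
      (cnt (S f α) x : ℝ) ≤ C * (√x * (Real.log x) ^ d.primeFactors.card) := by
    rcases hf with ⟨s, m, t, hs, hm, hf⟩ | ⟨b, t, hb, hf⟩
    · obtain ⟨s', hs', hss⟩ : ∃ s' : ℤ, (s' = 1 ∨ s' = -1) ∧ (s' : ℚ) = s := by
        rcases hs with rfl | rfl
        · exact ⟨1, Or.inl rfl, by simp⟩
        · exact ⟨-1, Or.inr rfl, by simp⟩
      have hm2 : m / 2 ≠ 0 := div_ne_zero hm two_ne_zero
      have hf' : f = Pool.Agent.TH191.CP.conj (m / 2) t (Polynomial.C (s' : ℚ) * Chebyshev.C ℚ d) := by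
        apply Polynomial.funext
        intro x
        rw [hf x, Pool.Agent.TH191.CP.conj_eval, eval_mul, eval_C, hss]
        have h1 := congrArg (Polynomial.eval ((x - t) / m)) (Chebyshev.C_comp_two_mul_X ℚ (d : ℤ))
        have e2 : (2 : ℚ[X]) = Polynomial.C 2 := (map_ofNat Polynomial.C 2).symm
        rw [eval_comp, e2, eval_mul, eval_C, eval_X, eval_mul, eval_C] at h1
        have e3 : (m / 2)⁻¹ * (x - t) = 2 * ((x - t) / m) := by field_simp
        rw [e3, h1]
        ring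
      subst hf'
      exact Pool.Agent.TH191.CP.cheb_all d hd s' hs' (m / 2) t hm2 α hα
    · have hf' : f = Pool.Agent.TH191.CP.conj 1 t (Polynomial.C b * X ^ d) := by
        apply Polynomial.funext
        intro x
        rw [hf x, Pool.Agent.TH191.CP.conj_eval]
        simp
      subst hf'
      exact Pool.Agent.TH191.CP.bound_of_finite _
        (Pool.Agent.TH191.CP.power d hd b hb 1 t one_ne_zero α hα) _
  obtain ⟨C, hC⟩ := main
  exact ⟨⟨C, hC⟩, Pool.Agent.TH191.CP.dens0 _ _ C hC⟩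

end Pool.Agent.Results.MP_41de88_nt.SpecialPolynomials
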