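import Mathlib
import Pool.Agent.TH191.CP.Pre

set_option autoImplicit false

/-! Primes modulo which an orbit meets a critical point: unicritical polynomials, for orbits which
meet the orbit of the critical point. The lower density is positive for odd degree. -/

namespace Pool.Agent.Results.MP_41de88_nt.UnicriticalPolynomials

open Polynomial Filter Topology

/-- the `n`-th point of the orbit of `α` -/
def orb (f : ℚ[X]) (α : ℚ) (n : ℕ) : ℚ := (fun x => f.eval x)^[n] α

/-- The primes `p` such that `f` and `α` are `p`-integral and some point of the orbit of `α` is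
congruent to a critical point `c` of `f` modulo a prime above `p`: `V` runs through the valuation
rings of the algebraic closure of `ℚ` in which `p` is not invertible, `V.nonunits` is the maximal
ideal. -/
def S (f : ℚ[X]) (α : ℚ) : Set ℕ :=
  {p | p.Prime ∧ (∀ i, ¬ p ∣ (f.coeff i).den) ∧ ¬ p ∣ α.den ∧
    ∃ n : ℕ, ∃ c : AlgebraicClosure ℚ, aeval c (derivative f) = 0 ∧
      ∃ V : ValuationSubring (AlgebraicClosure ℚ), (p : AlgebraicClosure ℚ) ∈ V.nonunits ∧ c ∈ V ∧
        algebraMap ℚ (AlgebraicClosure ℚ) (orb f α n) - c ∈ V.nonunits}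

/-- the orbit of `α` contains no critical point of `f` -/
def Avoids (f : ℚ[X]) (α : ℚ) : Prop := ∀ n : ℕ, (derivative f).eval (orb f α n) ≠ 0

/-- the number of elements `≤ x` -/
noncomputable def cnt (A : Set ℕ) (x : ℕ) : ℕ := (A ∩ Set.Icc 1 x).ncard

/-- the lower density of `A` among the primes is at least `δ` -/
def LowerDensityGe (A : Set ℕ) (δ : ℝ) : Prop :=
  ∀ ε : ℝ, 0 < ε → ∀ᶠ x : ℕ in atTop, (δ - ε) * (Nat.primeCounting x : ℝ) ≤ (cnt A x : ℝ)

/-- the residues `c` modulo `d` such that `c` and `c - 1` are prime to `d` -/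
def Res (d : ℕ) : Finset ℕ := (Finset.range d).filter fun c => c.Coprime d ∧ (c - 1).Coprime d

/-- the proportion of the residues `c` with `c - 1` prime to `d` among the residues prime to `d` -/
noncomputable def ratio (d : ℕ) : ℝ := ((Res d).card : ℝ) / (d.totient : ℝ)

theorem Res_prime (l : ℕ) (hl : l.Prime) : (Res l).card = l - 2 := by
  have h : Res l = Finset.Ico 2 l := by
    ext c
    rw [Res, Finset.mem_filter, Finset.mem_range, Finset.mem_Ico]
    have key : ∀ c : ℕ, c < l → (c.Coprime l ↔ c ≠ 0) := by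
      intro c hc
      rw [Nat.coprime_comm, Nat.Prime.coprime_iff_not_dvd hl]
      constructor
      · rintro h rfl
        exact h (dvd_zero _)
      · intro h h'
        exact absurd (Nat.le_of_dvd (by omega) h') (by omega)
    constructor
    · rintro ⟨h1, h2, h3⟩
      rw [key c h1] at h2
      rw [key (c - 1) (by omega)] at h3
      omega
    · rintro ⟨h1, h2⟩
      refine ⟨h2, (key c h2).2 (by omega), (key (c - 1) (by omega)).2 (by omega)⟩
  rw [h, Nat.card_Ico]

theorem ratio_prime (l : ℕ) (hl : l.Prime) : ratio l = ((l : ℝ) - 2) / (l - 1) := by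
  have h2 := hl.two_le
  rw [ratio, Res_prime l hl, Nat.totient_prime hl, Nat.cast_sub h2, Nat.cast_sub (by omega)]
  simp

theorem ratio_pos (d : ℕ) (hd : Odd d) (h3 : 3 ≤ d) : 0 < ratio d := by
  rw [ratio]
  have h1 : 0 < (Res d).card := by
    rw [Finset.card_pos]
    refine ⟨2, ?_⟩
    rw [Res, Finset.mem_filter, Finset.mem_range]
    exact ⟨by omega, Nat.coprime_two_left.2 hd, Nat.coprime_one_left d⟩
  have h2 : 0 < d.totient := Nat.totient_pos.2 (by omega)
  positivity

theorem result :
    -- unicritical polynomials, `α` in the grand orbit of the critical point `t`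
    (∀ (d : ℕ) (b a t α : ℚ) (f : ℚ[X]), 2 ≤ d → b ≠ 0 →
      (∀ x : ℚ, f.eval x = b * (x - t) ^ d + a) → (∃ j k : ℕ, orb f α j = orb f t k) →
      LowerDensityGe (S f α) (ratio d)) ∧
    -- the value of the bound
    (∀ d : ℕ, Odd d → 3 ≤ d → 0 < ratio d) ∧
    (∀ l : ℕ, l.Prime → ratio l = ((l : ℝ) - 2) / (l - 1)) ∧
    -- lower densities arbitrarily close to one
    (∀ δ : ℝ, δ < 1 → ∃ (f : ℚ[X]) (α : ℚ), 2 ≤ f.natDegree ∧ Avoids f α ∧
      LowerDensityGe (S f α) δ) := by
  have huni : ∀ (d : ℕ) (b a t α : ℚ) (f : ℚ[X]), 2 ≤ d → b ≠ 0 →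
      (∀ x : ℚ, f.eval x = b * (x - t) ^ d + a) → (∃ j k : ℕ, orb f α j = orb f t k) →
      LowerDensityGe (S f α) (ratio d) := by
    intro d b a t α f hd hb hf ⟨j, k, hjk⟩ ε hε
    have hf' : f = Polynomial.C b * (X - Polynomial.C t) ^ d + Polynomial.C a := by
      apply Polynomial.funext
      intro x
      rw [hf x]
      simp
    have hfun : (fun x => f.eval x) = fun x : ℚ => b * (x - t) ^ d + a := funext hf
    have h := Pool.Agent.TH191.CP.lowd d hd b a t α hb j k (by
      have := hjk
      simp only [orb, hfun] at this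
      exact this) ε hε
    rw [← hf'] at h
    exact h
  refine ⟨huni, ratio_pos, ratio_prime, ?_⟩
  · intro δ hδ
    obtain ⟨N, hN⟩ := exists_nat_gt (1 / (1 - δ))
    obtain ⟨l, hlN, hl⟩ := Nat.exists_infinite_primes (N + 3)
    have hl2 := hl.two_le
    have hpos : ∀ n : ℕ, 0 < orb (Polynomial.C 1 * (X - Polynomial.C 0) ^ l + Polynomial.C 1) 1 n := by
      intro n
      induction n with
      | zero => exact one_pos
      | succ n ih =>
        unfold orb at ih ⊢
        rw [Function.iterate_succ_apply']
        simp only [map_one, map_zero, sub_zero, one_mul, eval_add, eval_pow, eval_X, eval_one] at ih ⊢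
        positivity
    refine ⟨Polynomial.C 1 * (X - Polynomial.C 0) ^ l + Polynomial.C 1, 1, ?_, ?_, ?_⟩
    · have : (Polynomial.C 1 * (X - Polynomial.C 0) ^ l + Polynomial.C 1 : ℚ[X]).natDegree = l := by
        simp only [map_one, map_zero, sub_zero, one_mul]
        compute_degree!
        omega
      rw [this]
      exact hl2
    · intro n
      have h1 : (derivative (Polynomial.C 1 * (X - Polynomial.C 0) ^ l + Polynomial.C 1 : ℚ[X])) =
          Polynomial.C (l : ℚ) * X ^ (l - 1) := by
        rw [derivative_add, derivative_C, add_zero, map_one, one_mul, map_zero, sub_zero,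
          derivative_X_pow]
      rw [h1, eval_mul, eval_C, eval_pow, eval_X]
      have h2 : (l : ℚ) ≠ 0 := by exact_mod_cast hl.ne_zero
      exact mul_ne_zero h2 (pow_ne_zero _ (hpos n).ne')
    · have h1 := huni l 1 1 0 1 (Polynomial.C 1 * (X - Polynomial.C 0) ^ l + Polynomial.C 1) hl2
        one_ne_zero (by intro x; simp) ⟨0, 1, by
          simp [orb, hl.ne_zero]⟩
      have h2 : δ ≤ ratio l := by
        rw [ratio_prime l hl]
        have h3 : (0 : ℝ) < 1 - δ := by linarith
        have h4 : (N : ℝ) + 3 ≤ l := by exact_mod_cast hlN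
        have h5 : 1 / (1 - δ) < (l : ℝ) - 1 := by linarith
        have h6 : (0 : ℝ) < (l : ℝ) - 1 := lt_trans (by positivity) h5
        rw [div_lt_iff₀ h3] at h5
        rw [le_div_iff₀ h6]
        linarith
      intro ε hε
      filter_upwards [h1 ε hε] with x hx
      refine le_trans ?_ hx
      apply mul_le_mul_of_nonneg_right _ (Nat.cast_nonneg _)
      linarith

end Pool.Agent.Results.MP_41de88_nt.UnicriticalPolynomials
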